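import Pool.Agent.H766Z.AspDefs
import Pool.Agent.H766Z.AspMain

/-!
# MP_e733ef_an, Q1: a negative answer

There is a Baire locally convex space with separable strong dual that is not Asplund.

Construction. `E` is a dense linear subspace of `ℓ_∞ × ℝ^I`, `|I| = 𝔠`, built by a Bernstein type
choice so that (i) `E` meets every countable intersection of dense open sets inside every nonempty
open set, (ii) the projection `E → ℓ_∞` is injective, (iii) every linearly independent sequence in
`E` is unbounded on some coordinate of `ℝ^I`. By (i) `E` is Baire, by (iii) bounded sets are finite
dimensional, so that by (ii) the span of the coordinate functionals of `ℓ_∞` is strongly dense in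
the dual. The function `(x, y) ↦ limsup x_n` is continuous, convex and nowhere Gateaux
differentiable on `E`.
-/

set_option autoImplicit false

namespace Pool.Agent.Results.MP_e733ef_an.BaireNotAsplund

open Pool.Agent.H766Z.Asp

/-- There is a real Hausdorff locally convex space `E` which is Baire and has separable strong dual
but is not Asplund; it even carries a continuous convex function that is nowhere Gateaux
differentiable. -/
theorem result :
    ∃ (E : Type) (_ : AddCommGroup E) (_ : Module ℝ E) (_ : TopologicalSpace E)
      (_ : IsTopologicalAddGroup E) (_ : ContinuousSMul ℝ E),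
      T2Space E ∧ LocallyConvexSpace ℝ E ∧ BaireSpace E ∧
      TopologicalSpace.SeparableSpace (StrongDual ℝ E) ∧ ¬ IsAsplund E ∧
      ∃ g : E → ℝ, Continuous g ∧ ConvexOn ℝ Set.univ g ∧ ∀ x, ¬ GateauxDiffAt g x :=
  counterexample

end Pool.Agent.Results.MP_e733ef_an.BaireNotAsplund
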